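import Pool.Agent.helper35.LV.Spec

/-! Row LEV of project LV (MP_a2a22c_al). -/

set_option autoImplicit false

namespace Pool.Agent.LV

open Matrix Pool.Agent.H48SL Pool.Agent.UG

/-- the elements of the stabiliser of `W` which agree with an element of `H` on `W` and on the quotient -/
def LEV_L {n : ℕ} (H : Subgroup (SLZ n)) (W : Submodule ℤ (Fin n → ℤ)) : Subgroup (SLZ n) where
  carrier := {g | g ∈ Par W ∧ ∃ h ∈ H, (∀ w ∈ W, (h : Matrix (Fin n) (Fin n) ℤ) *ᵥ w = (g : Matrix (Fin n) (Fin n) ℤ) *ᵥ w) ∧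
    ∀ v, (h : Matrix (Fin n) (Fin n) ℤ) *ᵥ v - (g : Matrix (Fin n) (Fin n) ℤ) *ᵥ v ∈ W}
  one_mem' := by
    refine ⟨(Par W).one_mem, 1, H.one_mem, fun w _ => rfl, fun v => ?_⟩
    rw [sub_self]
    exact W.zero_mem
  mul_mem' := by
    rintro a b ⟨ha, h₁, hh₁, ha1, ha2⟩ ⟨hb, h₂, hh₂, hb1, hb2⟩
    refine ⟨(Par W).mul_mem ha hb, h₁ * h₂, H.mul_mem hh₁ hh₂, fun w hw => ?_, fun v => ?_⟩
    · rw [mv_mul, mv_mul, hb1 w hw]
      exact ha1 _ ((hb w).2 hw)
    · rw [mv_mul, mv_mul]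
      have h1 : (h₁ : Matrix (Fin n) (Fin n) ℤ) *ᵥ ((h₂ : Matrix (Fin n) (Fin n) ℤ) *ᵥ v - (b : Matrix (Fin n) (Fin n) ℤ) *ᵥ v) ∈ W := by
        rw [ha1 _ (hb2 v)]
        exact (ha _).2 (hb2 v)
      have h2 := ha2 ((b : Matrix (Fin n) (Fin n) ℤ) *ᵥ v)
      have h3 := W.add_mem h1 h2
      rw [mulVec_sub, sub_add_sub_cancel] at h3
      exact h3
  inv_mem' := by
    rintro a ⟨ha, h, hh, ha1, ha2⟩
    have hai : ∀ w ∈ W, ((a⁻¹ : SLZ n) : Matrix (Fin n) (Fin n) ℤ) *ᵥ w ∈ W := fun w hw => ((Par W).inv_mem ha w).2 hw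
    have h1 : ∀ w ∈ W, ((h⁻¹ : SLZ n) : Matrix (Fin n) (Fin n) ℤ) *ᵥ w = ((a⁻¹ : SLZ n) : Matrix (Fin n) (Fin n) ℤ) *ᵥ w := by
      intro w hw
      have h2 := ha1 _ (hai w hw)
      rw [mv_inv_right] at h2
      have h3 := mv_inv_left h (((a⁻¹ : SLZ n) : Matrix (Fin n) (Fin n) ℤ) *ᵥ w)
      rw [h2] at h3
      exact h3
    refine ⟨(Par W).inv_mem ha, h⁻¹, H.inv_mem hh, h1, fun v => ?_⟩
    have h2 := ha2 (((a⁻¹ : SLZ n) : Matrix (Fin n) (Fin n) ℤ) *ᵥ v)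
    rw [mv_inv_right] at h2
    have h3 : ((h⁻¹ : SLZ n) : Matrix (Fin n) (Fin n) ℤ) *ᵥ ((h : Matrix (Fin n) (Fin n) ℤ) *ᵥ (((a⁻¹ : SLZ n) : Matrix (Fin n) (Fin n) ℤ) *ᵥ v) - v) ∈ W := by
      rw [h1 _ h2]
      exact hai _ h2
    rw [mulVec_sub, mv_inv_left] at h3
    have h4 := W.neg_mem h3
    rw [neg_sub] at h4
    exact h4

theorem LEV : LEV_stmt := by
  intro n H W hyp
  have hle : (H ⊓ Par W) ⊔ Uni W ≤ LEV_L H W := by
    refine sup_le ?_ ?_
    · intro g hg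
      refine ⟨hg.2, g, hg.1, fun w _ => rfl, fun v => ?_⟩
      rw [sub_self]
      exact W.zero_mem
    · intro g hg
      refine ⟨fun w => ⟨fun h => ?_, fun h => ?_⟩, 1, H.one_mem, fun w hw => ?_, fun v => ?_⟩
      · have h1 := W.sub_mem h (hg.2 w)
        rw [sub_sub_cancel] at h1
        exact h1
      · have h1 := hg.1 w h
        rw [h1]
        exact h
      · rw [mv_one]
        exact (hg.1 w hw).symm
      · rw [mv_one]
        have h1 := W.neg_mem (hg.2 v)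
        rw [neg_sub] at h1
        exact h1
  constructor
  · intro x ψ hψW hψx
    have hPar : tv x ψ ∈ Par W := by
      intro w
      rw [tv_mulVec hψx]
      constructor
      · intro h
        have h1 := hψW _ h
        rw [dotProduct_add, dotProduct_smul, hψx, smul_zero, add_zero] at h1
        rw [h1, zero_smul, add_zero] at h
        exact h
      · intro h
        rw [hψW w h, zero_smul, add_zero]
        exact h
    obtain ⟨j, hj, hmem⟩ := hyp x ψ hψx hPar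
    obtain ⟨-, h, hh, h1, h2⟩ := hle hmem
    have hz : (((j : ℤ) • ψ)) ⬝ᵥ x = 0 := by rw [smul_dotProduct, hψx, smul_zero]
    rw [← tv_nsmul_right hψx] at h1 h2
    refine ⟨j, hj, h, hh, fun w hw => ?_, fun v => ?_⟩
    · rw [h1 w hw, tv_mulVec hz, smul_dotProduct, hψW w hw, smul_zero, zero_smul, add_zero]
    · have h3 := h2 v
      rw [tv_mulVec hz, smul_dotProduct, smul_eq_mul, ← sub_sub] at h3
      exact h3
  · intro x hx ψ hψx
    have hPar : tv x ψ ∈ Par W := by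
      intro w
      rw [tv_mulVec hψx]
      exact W.add_mem_iff_left (W.smul_mem _ hx)
    obtain ⟨j, hj, hmem⟩ := hyp x ψ hψx hPar
    obtain ⟨-, h, hh, h1, h2⟩ := hle hmem
    have hz : (((j : ℤ) • ψ)) ⬝ᵥ x = 0 := by rw [smul_dotProduct, hψx, smul_zero]
    rw [← tv_nsmul_right hψx] at h1 h2
    refine ⟨j, hj, h, hh, fun w hw => ?_, fun v => ?_⟩
    · rw [h1 w hw, tv_mulVec hz, smul_dotProduct, smul_eq_mul]
    · have h3 := h2 v
      rw [tv_mulVec hz, ← sub_sub] at h3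
      have h4 := W.add_mem h3 (W.smul_mem (((j : ℤ) • ψ) ⬝ᵥ v) hx)
      rw [sub_add_cancel] at h4
      exact h4

end Pool.Agent.LV
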